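import Pool.Agent.Lib_MP_6d30b5_co.Basic

set_option autoImplicit false

open Pool.Agent.Lib_MP_6d30b5_co

/-- Failure of the conjectured periodicity on the open interval `pn/2 < e < (p+1)n/2`, for every
`p ≥ 2` and for infinitely many `n`: for `n = (p+2)t - 1` with `t ≥ p+2` and
`e = binom(p+2,2)(t-1) - p` one has `pn/2 < e`, `e + P_p < (p+1)n/2` and
`m(n, e + P_p) > m(n, e) + D_p`. -/
theorem Pool.Agent.Results.MP_6d30b5_co.Disproof.result :
    ∀ p t : ℕ, 2 ≤ p → p + 2 ≤ t →
      ∃ n e : ℕ, n + 1 = (p + 2) * t ∧ e + p = (p + 2).choose 2 * (t - 1) ∧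
        p * n < 2 * e ∧ 2 * (e + (p + 2).choose 2) < (p + 1) * n ∧
        e + (p + 2).choose 2 ≤ n.choose 2 ∧
        minTriples n e + p * (p + 1) * (p + 2) / 3 < minTriples n (e + (p + 2).choose 2) := by
  intro p t hp ht
  have h1 : 1 ≤ (p + 2) * t := by nlinarith
  have h2 : p ≤ (p + 2).choose 2 * (t - 1) := by
    have h3 : p ≤ (p + 2).choose 2 := by
      have := two_P p
      have h4 : (p : ℤ) ≤ P p := by nlinarith
      exact_mod_cast h4
    calc p ≤ (p + 2).choose 2 := h3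
      _ = (p + 2).choose 2 * 1 := by ring
      _ ≤ (p + 2).choose 2 * (t - 1) := Nat.mul_le_mul_left _ (by omega)
  obtain ⟨a, b, c, d⟩ := failure p t ((p + 2) * t - 1) ((p + 2).choose 2 * (t - 1) - p) hp ht
    (by omega) (by rw [P]; omega)
  exact ⟨(p + 2) * t - 1, (p + 2).choose 2 * (t - 1) - p, by omega, by omega, a, b, c, d⟩
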