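import Pool.Agent.Lib_MP_6d30b5_co.Basic

set_option autoImplicit false

open Pool.Agent.Lib_MP_6d30b5_co

/-- The periodicity does hold on the whole interval up to a bounded distance (depending only on
`p`) from its right endpoint: if `pn/2 < e` and `e + P_p + p^2(p+3)/2 ≤ (p+1)n/2` then
`m(n, e + P_p) = m(n, e) + D_p`. -/
theorem Pool.Agent.Results.MP_6d30b5_co.Periodicity.result :
    ∀ p n e : ℕ, p * n < 2 * e →
      2 * (e + (p + 2).choose 2) + p ^ 2 * (p + 3) ≤ (p + 1) * n →
      e + (p + 2).choose 2 ≤ n.choose 2 ∧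
      minTriples n (e + (p + 2).choose 2) = minTriples n e + p * (p + 1) * (p + 2) / 3 := by
  intro p n e h1 h2
  refine ⟨?_, periodic p n e h1 h2⟩
  have h3 : 2 * (P p : ℤ) = (p + 1) * (p + 2) := two_P p
  have h1' : (p : ℤ) * n + 1 ≤ 2 * e := by exact_mod_cast h1
  have h2' : 2 * ((e : ℤ) + P p) + p ^ 2 * (p + 3) ≤ (p + 1) * n := by exact_mod_cast h2
  have hn : p + 2 ≤ n := by
    zify
    nlinarith [sq_nonneg (p : ℤ)]
  rw [Nat.choose_two_right n, Nat.le_div_iff_mul_le (by norm_num)]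
  calc (e + (p + 2).choose 2) * 2 = 2 * (e + (p + 2).choose 2) := by ring
    _ ≤ (p + 1) * n := by
        have : 0 ≤ p ^ 2 * (p + 3) := Nat.zero_le _
        omega
    _ = n * (p + 1) := by ring
    _ ≤ n * (n - 1) := Nat.mul_le_mul_left _ (by omega)
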